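import Pool.Agent.Q253.Cov.General
import Pool.Agent.Q253.Thin.Int
import Pool.Agent.Q253.P3.Lin
import Pool.Agent.Y882.PY.Eng

/-!
# One thin set of primes for the composite values of `n ^ 2 + n + a` without small prime factors

Adapted from `Pool.Agent.Q253.Cov.Quad` (the same for `n ^ 2 + a`).
-/

set_option autoImplicit false

namespace Pool.Agent.Q117.TF

open Finset Filter Polynomial
open Pool.Agent.Y882.PX (ro ro_eq KF ro_le)
open Pool.Agent.Y843.HS (Pr VV Pr_mem Pr_prime)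
open Pool.Agent.Q253.Thin (tower hit2 SysZ VZ_low)
open Pool.Agent.Q253.Cov (mertE Om mem_Om rich thin_cover)

/-- `|n ^ 2 + n + a|` -/
def qv (a : ℤ) (n : ℕ) : ℕ := ((n : ℤ) ^ 2 + n + a).natAbs

/-- the roots of `n ^ 2 + n + a` modulo `q` -/
def Zq (a : ℤ) (q : ℕ) : Finset ℕ := (range q).filter (fun n => q ∣ qv a n)

theorem deg2 : (X ^ 2 + X : ℤ[X]).natDegree = 2 := by
  compute_degree!

theorem lead2 : (X ^ 2 + X : ℤ[X]).leadingCoeff = 1 := by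
  rw [leadingCoeff, deg2]
  simp [coeff_X]

theorem KF2 : KF (X ^ 2 + X : ℤ[X]) ≤ 2 := by
  unfold KF
  rw [deg2, lead2]
  simp

theorem Zq_ro (a : ℤ) (q : ℕ) : (Zq a q).card = ro (X ^ 2 + X) a q := by
  rw [ro_eq]
  unfold Zq qv
  congr 1
  apply filter_congr
  intro n _
  rw [eval_add, eval_pow, eval_X]
  exact Int.natCast_dvd.symm

theorem Zq_card_le (a : ℤ) (q : ℕ) (hq : q.Prime) : (Zq a q).card ≤ 2 := by
  rw [Zq_ro]
  exact (ro_le (X ^ 2 + X) (by rw [deg2]; norm_num) a q hq).trans KF2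

theorem Zq_two {a : ℤ} (ha : Odd a) : Zq a 2 = ∅ := by
  unfold Zq
  rw [filter_eq_empty_iff]
  intro n hn h
  rw [mem_range] at hn
  obtain ⟨b, rfl⟩ := ha
  unfold qv at h
  rw [← Int.natCast_dvd] at h
  rcases (by omega : n = 0 ∨ n = 1) with rfl | rfl
  · push_cast at h
    omega
  · push_cast at h
    omega

theorem Zq_card_lt {a : ℤ} (ha : Odd a) (q : ℕ) (hq : q.Prime) : (Zq a q).card < q := by
  rcases hq.two_le.eq_or_lt with h | h
  · subst h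
    rw [Zq_two ha]
    norm_num
  · exact lt_of_le_of_lt (Zq_card_le a q hq) h

theorem Zq_sys {a : ℤ} (ha : Odd a) : SysZ 2 (Zq a) where
  card := fun p hp => Zq_card_le a p hp
  loc := fun p hp => Zq_card_lt ha p hp
  lt := fun _ _ _ hc => mem_range.1 (mem_filter.1 hc).1

theorem mod_root (a : ℤ) (q n : ℕ) (hq : 0 < q) (h : q ∣ qv a n) : n % q ∈ Zq a q := by
  unfold Zq
  rw [mem_filter, mem_range]
  refine ⟨Nat.mod_lt _ hq, ?_⟩
  unfold qv at h ⊢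
  rw [← Int.natCast_dvd] at h ⊢
  have h1 : ((n % q : ℕ) : ℤ) ≡ n [ZMOD q] := by
    rw [Int.natCast_mod]
    exact Int.mod_modEq _ _
  have h2 : ((n % q : ℕ) : ℤ) ^ 2 + ((n % q : ℕ) : ℤ) + a ≡ (n : ℤ) ^ 2 + n + a [ZMOD q] := ((h1.pow 2).add h1).add_right a
  exact (Int.ModEq.dvd_iff h2).2 h

theorem qv_le {a : ℤ} {X n : ℕ} (hn : n ≤ X) (ha : |a| ≤ (X : ℤ) ^ 2) : qv a n ≤ 3 * X ^ 2 := by
  unfold qv
  have h6 : |(n : ℤ) ^ 2 + n + a| ≤ 3 * (X : ℤ) ^ 2 := by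
    have h7 : (n : ℤ) ^ 2 ≤ (X : ℤ) ^ 2 := by
      apply pow_le_pow_left₀ (by positivity)
      exact_mod_cast hn
    have h8 : (n : ℤ) ≤ (X : ℤ) ^ 2 := by
      have : n ≤ X ^ 2 := by nlinarith
      exact_mod_cast this
    calc |(n : ℤ) ^ 2 + n + a| ≤ |(n : ℤ) ^ 2 + n| + |a| := abs_add_le _ _
      _ ≤ (X : ℤ) ^ 2 + (X : ℤ) ^ 2 + (X : ℤ) ^ 2 := by
          rw [abs_of_nonneg (by positivity : (0 : ℤ) ≤ (n : ℤ) ^ 2 + n)]
          linarith
      _ = _ := by ring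
  have h7 : (((n : ℤ) ^ 2 + n + a).natAbs : ℤ) ≤ ((3 * X ^ 2 : ℕ) : ℤ) := by
    rw [Int.natCast_natAbs]
    push_cast
    exact h6
  exact_mod_cast h7

open Classical in
theorem mult_le (a : ℤ) (q X : ℕ) (hq : q.Prime) :
    (((Icc 1 X).filter (fun n => q ∣ qv a n)).card : ℝ) ≤ 2 * (X / q + 1) := by
  have hcov : (Icc 1 X).filter (fun n => q ∣ qv a n) ⊆
      (Zq a q).biUnion (fun v => (Ioc 0 (0 + X)).filter (fun j => j ≡ v [MOD q])) := by
    intro n hn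
    rw [mem_filter, mem_Icc] at hn
    rw [mem_biUnion]
    refine ⟨n % q, mod_root a q n hq.pos hn.2, ?_⟩
    rw [mem_filter, mem_Ioc]
    exact ⟨⟨by omega, by omega⟩, (Nat.mod_modEq n q).symm⟩
  have h0 : (0 : ℝ) ≤ X / q + 1 := by positivity
  calc (((Icc 1 X).filter (fun n => q ∣ qv a n)).card : ℝ) ≤
        ∑ v ∈ Zq a q, ((((Ioc 0 (0 + X)).filter (fun j => j ≡ v [MOD q])).card : ℕ) : ℝ) := by
        exact_mod_cast (card_le_card hcov).trans card_biUnion_le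
    _ ≤ ∑ _v ∈ Zq a q, ((X : ℝ) / q + 1) := by
        apply sum_le_sum
        intro v _
        have := (abs_le.1 (Pool.Agent.Q253.P3.card_class 0 X q v hq.pos)).2
        linarith
    _ = (Zq a q).card * ((X : ℝ) / q + 1) := by rw [sum_const, nsmul_eq_mul]
    _ ≤ 2 * (X / q + 1) := mul_le_mul_of_nonneg_right (by exact_mod_cast Zq_card_le a q hq) h0

open Classical in
/-- **One thin set of primes for composite values.** -/
theorem quad_thin {κ : Type*} [Fintype κ] (J : κ → ℕ → ℤ → Finset ℕ)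
    (hJ : ∀ t X a n, n ∈ J t X a → 1 ≤ n ∧ n ≤ X ∧ ¬ (qv a n).Prime ∧ 2 ≤ qv a n ∧
      ∀ q : ℕ, q.Prime → q ∣ qv a n → (X : ℝ) ^ (1 / 6 : ℝ) ≤ q) (c : ℝ) (hc : 0 < c) :
    ∃ C : ℝ, 0 < C ∧ ∃ Q : Set ℕ, (∀ q ∈ Q, q.Prime) ∧
      (∀ x : ℕ, 2 ≤ x → {q ∈ Q | q ≤ x}.Finite ∧ ({q ∈ Q | q ≤ x}.ncard : ℝ) ≤ C * Real.log x ^ 3) ∧
      ∃ c' : ℝ, 0 < c' ∧ ∃ X₁ : ℕ, ∀ X : ℕ, X₁ ≤ X → ∀ a : ℤ, |a| ≤ (X : ℤ) ^ 2 → ∀ t : κ,
        c * (X / Real.log X ^ 2) ≤ ((J t X a).card : ℝ) →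
        ∃ q ∈ Q, c' * (J t X a).card / q ≤ (((J t X a).filter (fun n => (qv a n).minFac = q)).card : ℝ) := by
  obtain ⟨M, hM, Z₀, hmert⟩ := mertE 7 (by norm_num)
  -- the indices
  set I : ℕ → Finset (κ × ℕ × ℤ) := fun i => ((univ : Finset κ) ×ˢ ((range ((2 ^ 2 ^ i) ^ 2)) ×ˢ
    (Icc (-((2 ^ 2 ^ i : ℕ) : ℤ) ^ 4) (((2 ^ 2 ^ i : ℕ) : ℤ) ^ 4)))).filter (fun x => 2 ^ 2 ^ i ≤ x.2.1 ∧ |x.2.2| ≤ (x.2.1 : ℤ) ^ 2 ∧
      c * (x.2.1 / Real.log x.2.1 ^ 2) ≤ ((J x.1 x.2.1 x.2.2).card : ℝ)) with hI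
  set B : ℕ → κ × ℕ × ℤ → Finset ℕ := fun i x => (Om 7 (2 ^ 2 ^ i)).filter (fun q : ℕ =>
    ((J x.1 x.2.1 x.2.2).card : ℝ) / (2 * M * q) ≤
      (((J x.1 x.2.1 x.2.2).filter (fun n => (qv x.2.2 n).minFac = q)).card : ℝ)) with hB
  obtain ⟨i₀, hi₀⟩ : ∃ i₀, i₀ = max (max Z₀ (Fintype.card κ)) 2 := ⟨_, rfl⟩
  have hlarge : ∀ i, i₀ ≤ i → Z₀ ≤ 2 ^ 2 ^ i ∧ Fintype.card κ ≤ 2 ^ 2 ^ i ∧ 16 ≤ 2 ^ 2 ^ i := by
    intro i hi
    have h1 : i ≤ 2 ^ 2 ^ i := Nat.lt_two_pow_self.le.trans Nat.lt_two_pow_self.le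
    refine ⟨le_trans ((le_max_left _ _).trans ((le_max_left _ _).trans (hi₀ ▸ hi))) h1,
      le_trans ((le_max_right _ _).trans ((le_max_left _ _).trans (hi₀ ▸ hi))) h1, ?_⟩
    have h2 : 2 ≤ i := (le_max_right _ _).trans (hi₀ ▸ hi)
    calc 16 = 2 ^ 2 ^ 2 := by norm_num
      _ ≤ 2 ^ 2 ^ i := Nat.pow_le_pow_right (by norm_num) (Nat.pow_le_pow_right (by norm_num) h2)
  have hcardI : ∀ i, i₀ ≤ i → (I i).card ≤ (2 ^ 2 ^ i) ^ 8 := by
    intro i hi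
    obtain ⟨-, h1, h2⟩ := hlarge i hi
    obtain ⟨Z, hZ⟩ : ∃ Z, Z = 2 ^ 2 ^ i := ⟨_, rfl⟩
    rw [hI]
    simp only
    rw [← hZ] at h1 h2 ⊢
    refine (card_filter_le _ _).trans ?_
    rw [card_product, card_product, card_univ, card_range, Int.card_Icc]
    have h3 : (((Z : ℤ) ^ 4 + 1 - -(Z : ℤ) ^ 4).toNat) = 2 * Z ^ 4 + 1 := by
      have : ((Z : ℤ) ^ 4 + 1 - -(Z : ℤ) ^ 4) = ((2 * Z ^ 4 + 1 : ℕ) : ℤ) := by push_cast; ring
      rw [this, Int.toNat_natCast]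
    rw [h3]
    have h4 : 2 * Z ^ 4 + 1 ≤ Z ^ 5 := by
      have h5 : 1 ≤ Z ^ 4 := Nat.one_le_pow _ _ (by omega)
      have h6 : 16 * Z ^ 4 ≤ Z * Z ^ 4 := Nat.mul_le_mul_right _ h2
      calc 2 * Z ^ 4 + 1 ≤ 16 * Z ^ 4 := by omega
        _ ≤ Z * Z ^ 4 := h6
        _ = Z ^ 5 := by ring
    calc Fintype.card κ * (Z ^ 2 * (2 * Z ^ 4 + 1)) ≤ Z * (Z ^ 2 * Z ^ 5) :=
          Nat.mul_le_mul h1 (Nat.mul_le_mul_left _ h4)
      _ = Z ^ 8 := by ring
  obtain ⟨C, hC, Q, hQ, hQc, i₁, hcov⟩ := thin_cover 2 8 7 (by norm_num) (c / 48) (by positivity) I B i₀ hcardI (by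
    intro i hi x hx
    obtain ⟨h1, h2, h3⟩ := hlarge i hi
    obtain ⟨t, X, a⟩ := x
    obtain ⟨Z, hZ⟩ : ∃ Z, Z = 2 ^ 2 ^ i := ⟨_, rfl⟩
    rw [hI] at hx
    simp only [mem_filter, mem_product, mem_range] at hx
    rw [← hZ] at hx h1 h2 h3
    obtain ⟨⟨_, hX2, _⟩, hX1, ha, hcard⟩ := hx
    rw [hB]
    simp only
    rw [← hZ]
    refine ⟨filter_subset _ _, ?_⟩
    have hX0 : (0 : ℝ) < X := by exact_mod_cast (by omega : 0 < X)
    -- the prime factors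
    have hg : ∀ n ∈ J t X a, (qv a n).minFac ∈ Om 7 Z ∧ ((qv a n).minFac : ℝ) ≤ 7 / 4 * X := by
      intro n hn
      obtain ⟨n1, n2, n3, n4, n5⟩ := hJ t X a n hn
      have hp : (qv a n).minFac.Prime := Nat.minFac_prime (by omega)
      have h4 : (qv a n).minFac ^ 2 ≤ qv a n := Nat.minFac_sq_le_self (by omega) n3
      have h5 : qv a n ≤ 3 * X ^ 2 := qv_le n2 ha
      have h6 : ((qv a n).minFac : ℝ) ≤ 7 / 4 * X := by
        have h7 : (((qv a n).minFac : ℝ)) ^ 2 ≤ (7 / 4 * X) ^ 2 := by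
          have h8 : ((qv a n).minFac : ℝ) ^ 2 ≤ 3 * (X : ℝ) ^ 2 := by exact_mod_cast h4.trans h5
          nlinarith [sq_nonneg (X : ℝ)]
        exact (sq_le_sq₀ (by positivity) (by positivity)).1 h7
      refine ⟨?_, h6⟩
      rw [mem_Om]
      refine ⟨hp, ?_, ?_⟩
      · have h7 := n5 _ hp (Nat.minFac_dvd _)
        have h8 : (X : ℝ) ≤ ((qv a n).minFac : ℝ) ^ 6 := by
          calc (X : ℝ) = ((X : ℝ) ^ (1 / 6 : ℝ)) ^ 6 := by
                rw [← Real.rpow_natCast, ← Real.rpow_mul hX0.le]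
                norm_num
            _ ≤ _ := pow_le_pow_left₀ (by positivity) h7 6
        have h9 : X ≤ (qv a n).minFac ^ 6 := by exact_mod_cast h8
        exact (hX1.trans h9).trans (Nat.pow_le_pow_right hp.pos (by norm_num))
      · have h7 : (qv a n).minFac ≤ 2 * X := by
          have : ((qv a n).minFac : ℝ) ≤ 2 * X := by linarith
          exact_mod_cast this
        calc (qv a n).minFac ≤ 2 * X := h7
          _ ≤ 2 * Z ^ 2 := by omega
          _ ≤ Z * Z ^ 2 := Nat.mul_le_mul_right _ (by omega)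
          _ = Z ^ 3 := by ring
          _ ≤ Z ^ 7 := Nat.pow_le_pow_right (by omega) (by norm_num)
    have hr := rich (J t X a) (Om 7 Z) (fun n => (qv a n).minFac) (6 * X) M (by positivity) hM
      (fun q hq => (mem_Om.1 hq).1.pos) (hmert Z h1) (fun n hn => (hg n hn).1) (by
        intro q hq
        have hqp := (mem_Om.1 hq).1
        have hq0 : (0 : ℝ) < q := by exact_mod_cast hqp.pos
        rcases ((J t X a).filter (fun n => (qv a n).minFac = q)).eq_empty_or_nonempty with h0 | ⟨n, hn⟩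
        · rw [h0, card_empty, Nat.cast_zero]
          positivity
        · rw [mem_filter] at hn
          have h4 := (hg n hn.1).2
          rw [hn.2] at h4
          have hsub : (J t X a).filter (fun n => (qv a n).minFac = q) ⊆ (Icc 1 X).filter (fun n => q ∣ qv a n) := by
            intro m hm
            rw [mem_filter] at hm
            rw [mem_filter, mem_Icc]
            obtain ⟨m1, m2, _⟩ := hJ t X a m hm.1
            refine ⟨⟨m1, m2⟩, ?_⟩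
            rw [← hm.2]
            exact Nat.minFac_dvd _
          have h5 : (((J t X a).filter (fun n => (qv a n).minFac = q)).card : ℝ) ≤
              (((Icc 1 X).filter (fun n => q ∣ qv a n)).card : ℝ) := by exact_mod_cast card_le_card hsub
          refine h5.trans ((mult_le a q X hqp).trans ?_)
          rw [le_div_iff₀ hq0]
          have : 2 * ((X : ℝ) / q + 1) * q = 2 * X + 2 * q := by field_simp
          rw [this]
          linarith)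
    refine le_trans ?_ hr
    have hlZ : 0 < Real.log Z := Real.log_pos (by exact_mod_cast (by omega : 1 < Z))
    have hlX : 0 < Real.log X := Real.log_pos (by exact_mod_cast (by omega : 1 < X))
    have hlXZ : Real.log X ≤ 2 * Real.log Z := by
      have h4 : (X : ℝ) ≤ (Z : ℝ) ^ 2 := by exact_mod_cast hX2.le
      have h5 := Real.log_le_log hX0 h4
      rwa [Real.log_pow, Nat.cast_ofNat] at h5
    have h4 : c * (X / Real.log X ^ 2) / (12 * X) ≤ ((J t X a).card : ℝ) / (2 * (6 * X)) := by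
      rw [show (2 : ℝ) * (6 * X) = 12 * X by ring]
      exact div_le_div_of_nonneg_right hcard (by positivity)
    refine le_trans ?_ h4
    have h5 : c * (X / Real.log X ^ 2) / (12 * X) = c / 12 / Real.log X ^ 2 := by field_simp
    rw [h5]
    have h6 : Real.log X ^ 2 ≤ 4 * Real.log Z ^ 2 := by
      calc Real.log X ^ 2 ≤ (2 * Real.log Z) ^ 2 := pow_le_pow_left₀ hlX.le hlXZ 2
        _ = _ := by ring
    calc c / 48 / Real.log Z ^ 2 = c / 12 / (4 * Real.log Z ^ 2) := by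
          field_simp
          norm_num
      _ ≤ c / 12 / Real.log X ^ 2 := div_le_div_of_nonneg_left (by positivity) (by positivity) h6)
  refine ⟨C, hC, Q, hQ, hQc, 1 / (2 * M), by positivity, max ((2 ^ 2 ^ (max i₀ i₁)) ^ 2) 2, ?_⟩
  intro X hX a ha t hcard
  have hX1 : (2 ^ 2 ^ (max i₀ i₁)) ^ 2 ≤ X := (le_max_left _ _).trans hX
  obtain ⟨i, hi1, hi2⟩ := tower ((le_max_right _ _).trans hX)
  have hi3 : max i₀ i₁ ≤ i := by
    by_contra hcon
    push Not at hcon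
    have h1 : 2 ^ 2 ^ i ≤ 2 ^ 2 ^ (max i₀ i₁) :=
      Nat.pow_le_pow_right (by norm_num) (Nat.pow_le_pow_right (by norm_num) hcon.le)
    have := Nat.pow_le_pow_left h1 2
    omega
  have hlarge' := hlarge i ((le_max_left _ _).trans hi3)
  obtain ⟨q, hq, hqB⟩ := hcov i ((le_max_right _ _).trans hi3) (t, X, a) (by
    rw [hI]
    simp only [mem_filter, mem_product, mem_range, mem_univ, true_and]
    refine ⟨⟨hi2, ?_⟩, hi1, ha, hcard⟩
    rw [mem_Icc]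
    have h1 : (X : ℤ) ^ 2 ≤ ((2 ^ 2 ^ i : ℕ) : ℤ) ^ 4 := by
      have h2 : X ^ 2 ≤ ((2 ^ 2 ^ i) ^ 2) ^ 2 := Nat.pow_le_pow_left hi2.le 2
      rw [← pow_mul] at h2
      exact_mod_cast h2
    have h2 := abs_le.1 (ha.trans h1)
    exact ⟨h2.1, h2.2⟩)
  rw [hB] at hqB
  simp only [mem_filter] at hqB
  refine ⟨q, hq, le_trans (le_of_eq ?_) hqB.2⟩
  have hq0 : (0 : ℝ) < q := by exact_mod_cast (mem_Om.1 hqB.1).1.pos
  field_simp

end Pool.Agent.Q117.TF
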